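import Mathlib
import Pool.Agent.H7.LipFreeProof

set_option autoImplicit false

namespace Pool.Agent.Results.MP_c2fecd_an.StrictlyConvex

open Pool.Agent.H7.LipFree

/-- The Lipschitz-free space `F(ℓ_∞)` admits an equivalent strictly convex norm. -/
theorem result :
    ∃ N : (LipInf → ℝ) → ℝ,
      (∀ φ ∈ FreeInf, ∀ ψ ∈ FreeInf, N (φ + ψ) ≤ N φ + N ψ) ∧
      (∀ c : ℝ, ∀ φ ∈ FreeInf, N (c • φ) = |c| * N φ) ∧
      (∃ a b : ℝ, 0 < a ∧ 0 < b ∧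
        ∀ φ ∈ FreeInf, a * normInf φ ≤ N φ ∧ N φ ≤ b * normInf φ) ∧
      (∀ φ ∈ FreeInf, ∀ ψ ∈ FreeInf,
        N φ = 1 → N ψ = 1 → N ((1/2 : ℝ) • (φ + ψ)) = 1 → φ = ψ) :=
  Pool.Agent.H7.LipFree.main

end Pool.Agent.Results.MP_c2fecd_an.StrictlyConvex
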